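import Pool.Agent.V8H66.LT.QGroup

/-!
# Free `ℚ`-groups of rank at least two do not act freely on `Λ`-trees

`IsLambdaTree d`: `(T, d)` is a nonempty `Λ`-tree (any two points are joined by a segment, the
intersection of two segments with a common end point is a segment, the union of two segments which
meet only in a common end point is a segment).  `ActsFreely d F`: `F` acts by isometries and no
nontrivial element fixes a point or inverts a segment.  `IsFreeQGroup ι`: the group `F` with the map
`ι : X → F` is the free `ℚ`-group on `X`.

Idea of the proof.  Let `G` act freely on a `Λ`-tree, and let every element of `G` be a square.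
Suppose that `a` and `b = k²` do not commute.  Then `c = k a k⁻¹` is not `a` or `a⁻¹`, and it has the
same translation length as `a`; this implies that `c` moves the axis of `a` off itself.  So `g = a`
and `h = c a c⁻¹` have disjoint axes.  If `v² = g h g⁻¹ h⁻¹`, then `(g h g⁻¹)⁻¹ v` exchanges the points
`p` and `g p`, where `p` is the point of the axis of `g` which is nearest to the axis of `h`: a
contradiction.  So `G` is abelian.
-/

set_option autoImplicit false

namespace Pool.Agent.Results.MP_c6101b_al.NoFreeAction

open Pool.Agent.V8H66.LT

universe u v w

/-- For every set `X` there is a free `ℚ`-group on `X`; and if `X` has at least two elements, then a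
free `ℚ`-group on `X` does not act freely on any `Λ`-tree, for any totally ordered abelian group
`Λ`. -/
theorem result :
    (∀ X : Type u, ∃ (F : Type u) (_ : Group F) (ι : X → F), IsFreeQGroup ι) ∧
    (∀ (X F : Type u) [Group F] (ι : X → F), IsFreeQGroup ι → Nontrivial X →
      ∀ (Λ : Type v) [AddCommGroup Λ] [LinearOrder Λ] [IsOrderedAddMonoid Λ] (T : Type w)
        (d : T → T → Λ) [MulAction F T], IsLambdaTree d → ¬ ActsFreely d F) :=
  ⟨fun X => ⟨FreeQ X, inferInstance, _, FreeQ.isFree⟩,
    fun _ _ _ _ h hX _ _ _ _ _ _ _ H => h.not_actsFreely hX H⟩

end Pool.Agent.Results.MP_c6101b_al.NoFreeAction
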